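import Pool.Agent.Helper274_RO.FinW

set_option autoImplicit false

/-!
# An exponential proportion of all orders of consecutive prime gaps of record size

Let `f(X) = log X (log₂ X)² log₄ X / (log₃ X)²`, the size of the largest gaps that are produced by the
sieve for long gaps in this library.  There is an absolute constant `C` such that for every `k` and
every `A` there is `c > 0` such that at EVERY scale `H` between `log X` and `c f(X)` at least `k! / C ^ k`
of the `k!` orders of `k` consecutive prime gaps are realised, each one by at least `X ^ (7 / 8)` blocks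
of `k + 1` consecutive primes in `(X, 4 X]`, all in a given residue class modulo a squarefree number,
whose gaps are all at least `c H` and sum up to at most `H`, and such that in the given order each gap
is at least `A` times the preceding ones.

Proof.  (1) A Maynard-Tao theorem for `2 ^ B` residue classes in the windows of the record sieve, for
the functional `|P| - ∑ w(x, y)`, where `P` is the set of the classes `x` that are hit by a prime, the sum
is over the pairs of different elements of `P`, and `w ≥ 0` are arbitrary weights with row sums at most
a constant times `2 ^ B / B`: it takes values of size `B` (`Pool.Agent.Helper274_RO.fewW`).  (2) The weights are taken from a binary tree on the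
classes: `w(x, y)` is the number of the levels at which `x` and `y` are close.  The distances between
neighbouring classes are ordered like a given permutation of the `2 ^ B - 1` boundaries that respects
the levels of the tree; then `k` consecutive gaps between primes are ordered like this permutation at `k`
boundaries whose levels have sum at most `2 k` (`Pool.Agent.Helper274_RO.blockW`).  (3) Counting of
these permutations, weighted with the levels (`Pool.Agent.Helper274_RO.many_patterns`): the number
of boundaries of each level, and of the permutations of the `k` places that preserve the levels.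
-/

namespace Pool.Agent.Results.MP_b0c12c_nt.OrdersOfRecordGaps

/-- The record scale `f(X) = log X (log₂ X)² log₄ X / (log₃ X)²` (iterated natural logarithms). -/
noncomputable def f (X : ℝ) : ℝ :=
  Real.log X * (Real.log (Real.log X)) ^ 2 * Real.log (Real.log (Real.log (Real.log X))) /
    (Real.log (Real.log (Real.log X))) ^ 2

/-- The `i`-th prime, numbered from `p 0 = 2`. -/
noncomputable def p (i : ℕ) : ℕ := Nat.nth Nat.Prime i

/-- The gap after the prime `p i`. -/
noncomputable def g (i : ℕ) : ℝ := (p (i + 1) : ℝ) - p i

/-- The primes `p n, …, p (n + k)` lie in `(X, 4 X]` and in the class of `a` modulo `q`, the `k` gaps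
between them are at least `c H` and sum up to at most `H`, and they are ordered like
`π 0, …, π (k - 1)` (so they are different), a larger one being at least `A` times a smaller one. -/
def Block (q a k : ℕ) (A c H X : ℝ) (π : Equiv.Perm (Fin k)) (n : ℕ) : Prop :=
  X < (p n : ℝ) ∧ (p (n + k) : ℝ) ≤ 4 * X ∧ (p (n + k) : ℝ) ≤ (p n : ℝ) + H ∧
  (∀ i ≤ k, p (n + i) ≡ a [MOD q]) ∧ (∀ i < k, c * H ≤ g (n + i)) ∧
  ∀ i j : Fin k, π i < π j → g (n + i) < g (n + j) ∧ A * g (n + i) ≤ g (n + j)

/-- The orders `π` of `k` gaps that are realised by at least `X ^ (7 / 8)` such blocks. -/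
def Orders (q a k : ℕ) (A c H X : ℝ) : Set (Equiv.Perm (Fin k)) :=
  {π | X ^ (7 / 8 : ℝ) ≤ ({n : ℕ | Block q a k A c H X π n}.ncard : ℝ)}

/-- A proportion `C ^ (-k)` of the orders of `k` consecutive gaps, at every scale up to the record
scale: there is an absolute `C > 1` such that for every `k ≥ 1` and every `A` there is `c > 0` such that
for all squarefree `q`, all `a` prime to `q` and all large `X`: for every `H` with `log X ≤ H ≤ c f(X)`
at least `k! / C ^ k` of the `k!` orders are realised at least `X ^ (7 / 8)` times, with quotients at
least `A`. -/
theorem result : ∃ C : ℝ, 1 < C ∧ ∀ k : ℕ, 1 ≤ k → ∀ A : ℝ, ∃ c : ℝ, 0 < c ∧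
    ∀ q a : ℕ, Squarefree q → a.Coprime q → ∃ X₀ : ℝ, ∀ X : ℝ, X₀ ≤ X →
      ∀ H : ℝ, Real.log X ≤ H → H ≤ c * f X →
        (k.factorial : ℝ) / C ^ k ≤ ((Orders q a k A c H X).ncard : ℝ) := by
  obtain ⟨C, hC, hmain⟩ := Pool.Agent.Helper274_RO.ordersW
  refine ⟨C, hC, fun k hk A => ?_⟩
  obtain ⟨c, hc, hk2⟩ := hmain k hk A
  refine ⟨c, hc, fun q a hq ha => ?_⟩
  obtain ⟨X₀, hX₀⟩ := Filter.eventually_atTop.1 (hk2 q a hq ha)
  exact ⟨X₀, fun X hX H hH1 hH2 => hX₀ X hX H hH1 hH2⟩

end Pool.Agent.Results.MP_b0c12c_nt.OrdersOfRecordGaps
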