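import Mathlib
import Pool.Agent.H35_CR.Main

/-!
# A positive proportion `η ^ k` of the patterns of EVERY set of shifts occurs in a cluster isolated by record gaps

Let `f(X) = log X (log₂ X)² log₄ X / (log₃ X)²`, the size of the largest gaps between consecutive primes known
below `X`. There is an absolute `η > 0` such that for all `k` and `ε > 0`, for all large `X` and for EVERY set `V`
(of at least `n₀(k, ε)` and up to `(log X)²` elements, it may depend on `X`) of integers of `[0, (log X)²]` all of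
whose subsets with at most `T(k, ε)` elements are admissible, at least the proportion `η ^ k - ε` of all the
`(k + 1)`-tuples `(y_0, ..., y_k)` of elements of `V` have the following property: for at least `X ^ (3/4)` integers
`n ∈ (X, 3X]` all the `n + y_i` are prime, while all the primes `q` at distance at most `c f(X)` from `n` (and
all those near rational multiples of bounded height of `n` or of an arbitrary linear image `a n + b`) are among at
most `K(k, ε)` of the numbers `n + v`, `v ∈ V`.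

The proof combines the coloured Maynard-Tao theorem for arbitrary admissible tuples inside the record windows
(`Pool.Agent.TH101.RG.tuple_multiples`, starting files) with a combinatorial theorem on families of finite sets
(`Pool.Agent.W25.QL`, starting files: supersaturation, Erdős's box lemma and weights on simplicial complexes).
-/

set_option autoImplicit false

open Filter

namespace Pool.Agent.Results.MP_b0c12c_nt.ProportionOfAllPatterns

/-- The record scale `f(x) = log x (log₂ x)² log₄ x / (log₃ x)²` (iterated natural logarithms). -/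
noncomputable def f (x : ℝ) : ℝ :=
  Real.log x * (Real.log (Real.log x)) ^ 2 * Real.log (Real.log (Real.log (Real.log x))) /
    (Real.log (Real.log (Real.log x))) ^ 2

/-- The `n ∈ (X, 3X]`, `n ≡ h (mod d)`, with all `n + y_i` prime such that there are at most `K` elements `u` of `V`
with: every prime `q` with `|j q - i (a n + b)| ≤ c f(X)` for some `1 ≤ |i|, |j| ≤ J` is one of the `n + u`. -/
def Isolated (K J d h : ℕ) (a b : ℤ) (c X : ℝ) (V : Finset ℕ) {k : ℕ} (y : Fin (k + 1) → ℕ) : Set ℕ :=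
  {n : ℕ | X < n ∧ (n : ℝ) ≤ 3 * X ∧ n ≡ h [MOD d] ∧ (∀ i, (n + y i).Prime) ∧
    ∃ U ⊆ V, U.card ≤ K ∧ ∀ i j : ℤ, 1 ≤ |i| → |i| ≤ J → 1 ≤ |j| → |j| ≤ J → ∀ q : ℕ, q.Prime →
      |((j * q - i * (a * n + b) : ℤ) : ℝ)| ≤ c * f X → ∃ u ∈ U, q = n + u}

/-- There is an absolute `η > 0` such that for all `k` and `ε > 0` there are `T, K, n₀` with: for all `J, D, A₀` and
squarefree `d` there is `c > 0` such that for all large `X`, every finite set `V` of at least `n₀` integers of
`[0, (log X)²]` all of whose subsets with at most `T` elements are admissible, every `h` with all `h + v` prime to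
`d`, and all integers `a ≠ 0`, `b` with `|a| ≤ (log X)^D`, `|a| ≤ A₀ φ(|a|)`, `|b| ≤ X^D`: at least
`(η ^ k - ε) |V| ^ (k + 1)` tuples `(y_0, …, y_k)` of distinct elements of `V` have at least `X ^ (3/4)`
isolated `n`. -/
theorem result : ∃ η : ℝ, 0 < η ∧ ∀ (k : ℕ) (ε : ℝ), 0 < ε → ∃ T K n₀ : ℕ,
    ∀ (J D : ℕ) (A₀ : ℝ) (d : ℕ), Squarefree d → ∃ c : ℝ, 0 < c ∧ ∃ X₀ : ℝ, ∀ X : ℝ, X₀ ≤ X →
    ∀ V : Finset ℕ, n₀ ≤ V.card → (∀ v ∈ V, (v : ℝ) ≤ (Real.log X) ^ 2) →
    (∀ S ⊆ V, S.card ≤ T → ∀ p : ℕ, p.Prime → ∃ r : ℕ, ∀ s ∈ S, ¬ p ∣ r + s) →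
    ∀ h : ℕ, (∀ v ∈ V, (h + v).Coprime d) →
    ∀ a b : ℤ, a ≠ 0 → |(a : ℝ)| ≤ (Real.log X) ^ D → |(a : ℝ)| ≤ A₀ * (a.natAbs.totient : ℝ) →
    |(b : ℝ)| ≤ X ^ D →
    (η ^ k - ε) * (V.card : ℝ) ^ (k + 1) ≤
      ({y : Fin (k + 1) → ℕ | Function.Injective y ∧ (∀ i, y i ∈ V) ∧
        X ^ (3 / 4 : ℝ) ≤ ((Isolated K J d h a b c X V y).ncard : ℝ)}.ncard : ℝ) := by
  classical
  obtain ⟨η, hη, H⟩ := Pool.Agent.H35_CR.main
  refine ⟨η, hη, fun k ε hε => ?_⟩
  obtain ⟨T, K, n₀, -, H1⟩ := H k ε hε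
  refine ⟨T, K, n₀, fun J D A₀ d hd => ?_⟩
  obtain ⟨c, hc, hX⟩ := H1 J D A₀ d hd
  obtain ⟨X₀, hX₀⟩ := eventually_atTop.1 hX
  refine ⟨c, hc, X₀, fun X hXX V hV hVX hadm h hh a b ha haD haφ hb => ?_⟩
  refine (hX₀ X hXX V hV hVX hadm h hh a b ha haD haφ hb).trans (le_of_eq ?_)
  rw [← Set.ncard_coe_finset]
  congr 2
  ext y
  have hI : Pool.Agent.H35_CR.Good K J d h a b c X V (Finset.univ.image y) = Isolated K J d h a b c X V y := by
    ext n
    show (_ ∧ _ ∧ _ ∧ _ ∧ _) ↔ (_ ∧ _ ∧ _ ∧ _ ∧ _)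
    simp only [Finset.mem_image, Finset.mem_univ, true_and, forall_exists_index, forall_apply_eq_imp_iff]
    rfl
  simp only [Finset.coe_filter, Fintype.mem_piFinset]
  constructor
  · rintro ⟨h1, h2, h3⟩
    refine ⟨h2, h1, ?_⟩
    rw [← hI]
    convert h3
  · rintro ⟨h1, h2, h3⟩
    refine ⟨h2, h1, ?_⟩
    rw [← hI] at h3
    convert h3

end Pool.Agent.Results.MP_b0c12c_nt.ProportionOfAllPatterns
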