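import Pool.Agent.Helper274_RT.DistT

set_option autoImplicit false

/-!
# Spread distributions on the patterns of consecutive primes in windows of record size

Let `f(X) = log X (log₂ X)² log₄ X / (log₃ X)²`, the size of the largest gaps that are produced by the
sieve for long gaps in this library, and let `V` be an arbitrary set of at least `K(m) ≤ C ^ m` primes
between `log X` and `c f(X)`, for example all of them.  There is a probability distribution on the
`m`-element subsets `H` of `V` each of which occurs for at least `X ^ (7 / 8)` integers `n ∈ (X, 3 X]` with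
the following property: the numbers `n + h`, `h ∈ H`, are consecutive primes, and the whole window
`[n, n + c f(X)]` of record length contains at most `K(m)` primes, all of the form `n + v`, `v ∈ V`.  For ALL
pairs `u ≠ v` of elements of `V` the random pattern contains `u` and `v` with probability at most
`C m² / |V|²`.  The constant `C` is absolute, and for every distribution some pair has probability at least
`m (m - 1) / (|V| (|V| - 1))`.

Proof.  The Maynard-Tao sieve in the windows of the record sieve for the functional `|P| - w(P)`, where `P`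
is the set of the `v` with `n + v` prime, and `w(P)` the sum of the weights of the pairs in `P`
(`Pool.Agent.Helper274_RT.fewT`), for a subset of `V` with `2 ^ B` elements, `B` of order `m`, whose total
weight is at most the average; one of the blocks of `m` consecutive elements of `P` has small weight
(`Pool.Agent.Helper274_RT.pat_T`).  The distribution is obtained from the weights by the duality of
linear programming (`Pool.Agent.Helper274_RT.duality`).
-/

open Finset

namespace Pool.Agent.Results.MP_b0c12c_nt.SpreadRecordPatterns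

/-- The record scale `f(X) = log X (log₂ X)² log₄ X / (log₃ X)²` (iterated natural logarithms). -/
noncomputable def f (X : ℝ) : ℝ :=
  Real.log X * (Real.log (Real.log X)) ^ 2 * Real.log (Real.log (Real.log (Real.log X))) /
    (Real.log (Real.log (Real.log X))) ^ 2

/-- `n` is a multiple of `q` in `(X, 3 X]`, the numbers `n + h`, `h ∈ H`, are prime, no other number
between the smallest and the largest of them is prime, and all the primes in `[n, n + c f(X)]` are among
at most `K` of the numbers `n + v`, `v ∈ V`. -/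
def Near (q K : ℕ) (c X : ℝ) (V H : Finset ℕ) (n : ℕ) : Prop :=
  X < n ∧ (n : ℝ) ≤ 3 * X ∧ q ∣ n ∧ (∀ h ∈ H, (n + h).Prime) ∧
    (∀ y : ℕ, (∃ h ∈ H, h ≤ y) → (∃ h ∈ H, y ≤ h) → (n + y).Prime → y ∈ H) ∧
    ∃ S ⊆ V, S.card ≤ K ∧ ∀ y : ℕ, (y : ℝ) ≤ c * f X → (n + y).Prime → y ∈ S

open Classical in
/-- There is an absolute `C > 1` such that for every `m ≥ 1` there are `K ≤ C ^ m` and `c > 0` such that for all
squarefree `q` and all large `X`: for every set `V` of at least `K` primes in `[log X, c f(X)]` there is a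
probability distribution `μ` on the subsets `H` of `V`, concentrated on those with `m` elements for which
`Near q K c X V H n` holds for at least `X ^ (7 / 8)` integers `n`, such that the probability of `u ∈ H` and
`v ∈ H` is at most `C m² / |V|²` for all `u ≠ v` in `V`. -/
theorem result : ∃ C : ℝ, 1 < C ∧ ∀ m : ℕ, 1 ≤ m → ∃ K : ℕ, (K : ℝ) ≤ C ^ m ∧ ∃ c : ℝ, 0 < c ∧
    ∀ q : ℕ, Squarefree q → ∃ X₀ : ℝ, ∀ X : ℝ, X₀ ≤ X → ∀ V : Finset ℕ, K ≤ V.card →
    (∀ v ∈ V, v.Prime ∧ Real.log X ≤ v ∧ (v : ℝ) ≤ c * f X) →
    ∃ μ : Finset ℕ → ℝ, (∀ H, 0 ≤ μ H) ∧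
      (∀ H, μ H ≠ 0 → H ⊆ V ∧ H.card = m ∧
        X ^ (7 / 8 : ℝ) ≤ ({n : ℕ | Near q K c X V H n}.ncard : ℝ)) ∧
      ∑ H ∈ V.powerset, μ H = 1 ∧
      ∀ u ∈ V, ∀ v ∈ V, u ≠ v →
        ∑ H ∈ V.powerset.filter (fun H => u ∈ H ∧ v ∈ H), μ H ≤ C * (m : ℝ) ^ 2 / (V.card : ℝ) ^ 2 := by
  obtain ⟨C, hC, h⟩ := Pool.Agent.Helper274_RT.dist_T
  refine ⟨C, hC, fun m hm => ?_⟩
  obtain ⟨K, hK, c, hc, h1⟩ := h m hm
  refine ⟨K, hK, c, hc, fun q hq => ?_⟩
  obtain ⟨X₀, hX₀⟩ := h1 q hq
  refine ⟨X₀, fun X hX V hV hVp => ?_⟩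
  obtain ⟨μ, g1, g2, g3, g4⟩ := hX₀ X hX V hV hVp
  refine ⟨μ, g1, fun H hH => g2 H hH, g3, fun u hu v hv huv => ?_⟩
  refine le_trans (le_of_eq ?_) (g4 u hu v hv huv)
  congr

end Pool.Agent.Results.MP_b0c12c_nt.SpreadRecordPatterns
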