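import Mathlib
import Pool.Agent.Results.MP_3bc45c_nt.RecordGapsAtPrescribedPlaces
import Pool.Agent.helper159_ZK.Main

set_option autoImplicit false

/-!
# Prime gaps of record length around integers with prescribed Zeckendorf digits

Every positive integer is uniquely a sum of nonconsecutive Fibonacci numbers `F_i`, `i ≥ 2`; the indices are
its Zeckendorf digits (`Nat.zeckendorf n` is their decreasing list). Let
`f(x) = log x (log₂ x)² log₄ x / (log₃ x)²` (iterated natural logarithms), the size of the largest gaps between
consecutive primes that are known to occur up to `x`. Fix `ε > 0` and `Q`. Let `k ≥ 0` and let `m ≥ 1` be an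
integer without prime factors above `Q`, for instance a power of a fixed base `b`, such that `X = φ^k m²` is large,
`φ = (1 + √5)/2`. Let `φ^r ≥ X^(1 + ε)`. We show that all the digits `i ≤ k` and all the digits `i ≥ r` of an
integer `n` as well as its residue class modulo `m` can be prescribed, independently and arbitrarily, and still some
such `n` has no prime within `κ f(X)`. So with `m = 1` all but a proportion `ε` of the first `r` Zeckendorf digits
(and all the later ones) are prescribed; with `m = b^s` the last `s` digits of `n` in base `b` are prescribed, too.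

Proof. The multiples `t F_j`, `1 ≤ t ≤ F_L`, have all their Zeckendorf digits between `j - L - 2` and `j + L - 1`
(by means of the conjugate sums `∑ ψ^i`), so they can be inserted between the prescribed digits. If `j` is prime,
then all the prime factors of `F_j` are at least `j - 1` (rank of apparition, identity of d'Ocagne), so `F_j` is
prime to `m` and the modulus `F_j m` does not disturb the record sieve. We use the theorem of the starting files on
record gaps around integers of a residue class to a large modulus in a short interval
(`MP_3bc45c_nt.RecordGapsAtPrescribedPlaces`).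
-/

namespace Pool.Agent.Results.MP_b0c12c_nt.ZeckendorfDigitsInRecordGaps

/-- The record scale `f(x) = log x (log₂ x)² log₄ x / (log₃ x)²` (iterated natural logarithms). -/
noncomputable def f (x : ℝ) : ℝ :=
  Real.log x * (Real.log (Real.log x)) ^ 2 * Real.log (Real.log (Real.log (Real.log x))) /
    (Real.log (Real.log (Real.log x))) ^ 2

/-- For `ε > 0` and `Q` there are `κ > 0` and `X₀` with the following property. Let `m ≥ 1` have no prime factor
above `Q`, let `φ^k m² ≥ X₀` and `φ^r ≥ (φ^k m²)^(1 + ε)`. Let `A` and `B` be integers, all the Zeckendorf digits of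
`A` being at least `r` and all those of `B` at most `k`, and let `a` be any integer. Then there is `n ≡ a (mod m)`
whose Zeckendorf digits are those of `A`, some digits `i` with `k < i < r`, and those of `B`, such that
`|p - n| > κ f(φ^k m²)` for every prime `p`. -/
theorem result (ε : ℝ) (hε : 0 < ε) (Q : ℕ) :
    ∃ κ : ℝ, 0 < κ ∧ ∃ X₀ : ℝ, ∀ k m r : ℕ, 1 ≤ m → (∀ p : ℕ, p.Prime → p ∣ m → p ≤ Q) →
      X₀ ≤ Real.goldenRatio ^ k * (m : ℝ) ^ 2 →
      (Real.goldenRatio ^ k * (m : ℝ) ^ 2) ^ (1 + ε) ≤ Real.goldenRatio ^ r → ∀ A B a : ℕ,
      (∀ i ∈ A.zeckendorf, r ≤ i) → (∀ i ∈ B.zeckendorf, i ≤ k) →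
      ∃ (n : ℕ) (C : List ℕ), n.zeckendorf = A.zeckendorf ++ C ++ B.zeckendorf ∧
        (∀ i ∈ C, k < i ∧ i < r) ∧ n ≡ a [MOD m] ∧
        ∀ p : ℕ, p.Prime → κ * f (Real.goldenRatio ^ k * (m : ℝ) ^ 2) < |(p : ℝ) - n| :=
  Pool.Agent.helper159_ZK.main
    Pool.Agent.Results.MP_3bc45c_nt.RecordGapsAtPrescribedPlaces.result ε hε Q

end Pool.Agent.Results.MP_b0c12c_nt.ZeckendorfDigitsInRecordGaps
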